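import Pool.Agent.Helper34.LU.Df

/-!
PROJECT ALLQ (MP_274814_nt), family side: definitions. Blueprint: team-store SH_blueprint_v1.md.

`ι` finite, the space is `ι → ℂ` with rational points `ι → ℚ`, lattice `ι → ℤ`.
-/

set_option autoImplicit false

namespace Pool.Agent.Helper49.SH

open Finset Complex Pool.Agent.Helper34.LT LTG Pool.Agent.Helper34.LU

noncomputable section

variable {ι : Type} [Fintype ι]

/-- rational vector -/
def rv (t : ι → ℚ) : ι → ℂ := fun i => (t i : ℂ)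

/-- integral vector -/
def zv (l : ι → ℤ) : ι → ℂ := fun i => (l i : ℂ)

/-- complex conjugation -/
def cj (w : ι → ℂ) : ι → ℂ := fun i => (starRingEnd ℂ) (w i)

/-- the bilinear form of a rational matrix -/
def Eb (E : ι → ι → ℚ) (w w' : ι → ℂ) : ℂ := ∑ i, ∑ j, (E i j : ℂ) * w i * w' j

/-- rational linear map on complex vectors -/
def mv {ι' : Type} [Fintype ι'] (M : ι → ι' → ℚ) (w : ι' → ℂ) : ι → ℂ :=
  fun i => ∑ j, (M i j : ℂ) * w j

/-- the same as a linear map -/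
def mvL {ι' : Type} [Fintype ι'] (M : ι → ι' → ℚ) : (ι' → ℂ) →ₗ[ℂ] (ι → ℂ) where
  toFun w := mv M w
  map_add' a b := by
    funext i
    simp [mv, mul_add, Finset.sum_add_distrib]
  map_smul' c a := by
    funext i
    simp only [mv, Pi.smul_apply, smul_eq_mul, RingHom.id_apply, Finset.mul_sum]
    exact Finset.sum_congr rfl fun j _ => by ring

/-- orthogonal sum of two forms -/
def dsum {ι' : Type} (E : ι → ι → ℚ) (E' : ι' → ι' → ℚ) : ι ⊕ ι' → ι ⊕ ι' → ℚ
  | Sum.inl i, Sum.inl j => E i j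
  | Sum.inr i, Sum.inr j => E' i j
  | _, _ => 0

/-- product of two subspaces -/
def Np {ι' : Type} (N : Submodule ℂ (ι → ℂ)) (N' : Submodule ℂ (ι' → ℂ)) :
    Submodule ℂ (ι ⊕ ι' → ℂ) where
  carrier := {e | (fun i => e (Sum.inl i)) ∈ N ∧ (fun i => e (Sum.inr i)) ∈ N'}
  add_mem' {a b} ha hb := ⟨N.add_mem ha.1 hb.1, N'.add_mem ha.2 hb.2⟩
  zero_mem' := ⟨N.zero_mem, N'.zero_mem⟩
  smul_mem' c _ ha := ⟨N.smul_mem c ha.1, N'.smul_mem c ha.2⟩

/-- pull back of a form -/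
def pb {ι' : Type} (E : ι → ι → ℚ) (M : ι → ι' → ℚ) : ι' → ι' → ℚ :=
  fun i' j' => ∑ i, ∑ j, E i j * M i i' * M j j'

/-- polarised complex structure, `N` is the space of antiholomorphic vectors -/
structure Pol (E : ι → ι → ℚ) (N : Submodule ℂ (ι → ℂ)) : Prop where
  alt : ∀ i j, E i j = -E j i
  iso : ∀ e ∈ N, ∀ e' ∈ N, Eb E e e' = 0
  pos : ∀ e ∈ N, e ≠ 0 → 0 < (-(I * Eb E e (cj e))).re
  dim : 2 * Module.finrank ℂ N = Fintype.card ι

/-- the holomorphic vectors -/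
def Nc (N : Submodule ℂ (ι → ℂ)) : Submodule ℂ (ι → ℂ) where
  carrier := {e | cj e ∈ N}
  add_mem' {a b} ha hb := by
    have h : cj (a + b) = cj a + cj b := by
      funext i
      simp [cj]
    rw [Set.mem_setOf_eq] at ha hb ⊢
    rw [h]
    exact N.add_mem ha hb
  zero_mem' := by
    have h : cj (0 : ι → ℂ) = 0 := by
      funext i
      simp [cj]
    rw [Set.mem_setOf_eq, h]
    exact N.zero_mem
  smul_mem' c a ha := by
    have h : cj (c • a) = (starRingEnd ℂ) c • cj a := by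
      funext i
      simp [cj]
    rw [Set.mem_setOf_eq] at ha ⊢
    rw [h]
    exact N.smul_mem _ ha

/-- theta functions, as entire functions on the whole space `ι → ℂ` -/
structure AT (E : ι → ι → ℚ) (N : Submodule ℂ (ι → ℂ)) (F : (ι → ℂ) → ℂ) : Prop where
  diff : Differentiable ℂ F
  hol : ∀ e ∈ N, ∀ w, fderiv ℂ F w e = Real.pi * I * Eb E e w * F w
  per : ∃ k : ℕ, 1 ≤ k ∧ ∀ (l : ι → ℤ) (w : ι → ℂ),
    F (w + (k : ℂ) • zv l) = exp (-(Real.pi * I * k * Eb E (zv l) w)) * F w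

/-- theta functions with algebraic values at all rational points -/
structure AlgT (E : ι → ι → ℚ) (N : Submodule ℂ (ι → ℂ)) (F : (ι → ℂ) → ℂ) : Prop extends
    AT E N F where
  val : ∀ t : ι → ℚ, IsAlgebraic ℚ (F (rv t))

/-- the complex torus has algebraic theta functions -/
def Good (E : ι → ι → ℚ) (N : Submodule ℂ (ι → ℂ)) : Prop := ∃ F, AlgT E N F ∧ F ≠ 0

/-- covariant derivative -/
def nab (E : ι → ι → ℚ) (e : ι → ℂ) (F : (ι → ℂ) → ℂ) (w : ι → ℂ) : ℂ :=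
  fderiv ℂ F w e - Real.pi * I * Eb E e w * F w

/-- magnetic translation -/
def Ut (E : ι → ι → ℚ) (t : ι → ℚ) (F : (ι → ℂ) → ℂ) : (ι → ℂ) → ℂ :=
  fun w => exp (Real.pi * I * Eb E (rv t) w) * F (w + rv t)

/-- algebraic holomorphic vectors -/
def Valg (E : ι → ι → ℚ) (N : Submodule ℂ (ι → ℂ)) : Set (ι → ℂ) :=
  {e | e ∈ Nc N ∧ ∀ F, AlgT E N F → ∀ t : ι → ℚ, IsAlgebraic ℚ (nab E e F (rv t))}

/-! ### Riemann theta function, `ι = Fin m ⊕ Fin m` -/

/-- standard symplectic form `p q' - q p'` -/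
def E0 (m : ℕ) : Fin m ⊕ Fin m → Fin m ⊕ Fin m → ℚ
  | Sum.inl i, Sum.inr j => if i = j then 1 else 0
  | Sum.inr i, Sum.inl j => if i = j then -1 else 0
  | _, _ => 0

/-- Siegel space -/
structure Sieg {m : ℕ} (Z : Fin m → Fin m → ℂ) : Prop where
  symm : ∀ i j, Z i j = Z j i
  pos : ∀ x : Fin m → ℝ, x ≠ 0 → 0 < ∑ i, ∑ j, (Z i j).im * x i * x j

/-- `{(p, -Zp)}` -/
def NZ {m : ℕ} (Z : Fin m → Fin m → ℂ) : Submodule ℂ (Fin m ⊕ Fin m → ℂ) where
  carrier := {e | ∀ i, e (Sum.inr i) = -∑ j, Z i j * e (Sum.inl j)}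
  add_mem' {a b} ha hb := by
    intro i
    rw [Pi.add_apply, ha i, hb i, ← neg_add, ← Finset.sum_add_distrib]
    congr 1
    exact Finset.sum_congr rfl fun j _ => by rw [Pi.add_apply, mul_add]
  zero_mem' := by
    intro i
    simp
  smul_mem' c a ha := by
    intro i
    rw [Pi.smul_apply, ha i, smul_eq_mul, mul_neg, Finset.mul_sum]
    congr 1
    exact Finset.sum_congr rfl fun j _ => by rw [Pi.smul_apply, smul_eq_mul]; ring

/-- Riemann theta function on `C^m × C^m` -/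
def FZ {m : ℕ} (Z : Fin m → Fin m → ℂ) (w : Fin m ⊕ Fin m → ℂ) : ℂ :=
  exp (-(Real.pi * I * ∑ i, w (Sum.inl i) * w (Sum.inr i))) *
    ∑' n : Fin m → ℤ, exp (Real.pi * I * (∑ i, ∑ j, Z i j * (n i + w (Sum.inl i)) *
        (n j + w (Sum.inl j))) + 2 * Real.pi * I * ∑ i, (n i + w (Sum.inl i)) * w (Sum.inr i))

/-- semicharacter -/
def eps {m : ℕ} (l : Fin m ⊕ Fin m → ℤ) : ℂ := (-1 : ℂ) ^ (∑ i, l (Sum.inl i) * l (Sum.inr i))

/-! ### the field of the `q`-th roots of unity, coordinates with respect to `1, ζ, ζ^2, ..` -/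

/-- coordinates of the field -/
abbrev Iq (q : ℕ) : Type := Fin q.totient

/-- embedding number `u` -/
def em (q u : ℕ) (w : Iq q → ℂ) : ℂ := ∑ i, w i * zt q ^ (u * (i : ℕ))

/-- the antiholomorphic vectors of the type `s` -/
def Ns (q : ℕ) (s : Finset ℕ) : Submodule ℂ (Iq q → ℂ) where
  carrier := {w | ∀ u ∈ s, em q u w = 0}
  add_mem' {a b} ha hb := by
    intro u hu
    have h : em q u (a + b) = em q u a + em q u b := by
      simp [em, add_mul, Finset.sum_add_distrib]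
    rw [h, ha u hu, hb u hu, add_zero]
  zero_mem' := by
    intro u _
    simp [em]
  smul_mem' c a ha := by
    intro u hu
    have h : em q u (c • a) = c * em q u a := by
      simp [em, Finset.mul_sum, mul_assoc]
    rw [h, ha u hu, mul_zero]

/-- `E = Tr(ξ x conj y)`, `ξ` a polynomial in `ζ` -/
def KForm (q : ℕ) (ξ : Polynomial ℚ) (E : Iq q → Iq q → ℚ) : Prop :=
  ∀ w w', Eb E w w' =
    ∑ u ∈ UU q, Polynomial.aeval (zt q ^ u) ξ * em q u w * em q (q - u) w'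

/-- `ε` is the vector with embeddings `δ_{uv}` -/
def IsEps (q u : ℕ) (ε : Iq q → ℂ) : Prop := ∀ v ∈ UU q, em q v ε = if v = u then 1 else 0

/-- the type `s` is good with scales `ρ` -/
def GoodS (q : ℕ) (s : Finset ℕ) (ρ : ℕ → ℂ) : Prop :=
  HS q s ∧ ∃ (ξ : Polynomial ℚ) (E : Iq q → Iq q → ℚ), KForm q ξ E ∧ Pol E (Ns q s) ∧
    Good E (Ns q s) ∧ ∀ u ∈ s, ρ u ≠ 0 ∧ ∀ ε, IsEps q u ε → (ρ u)⁻¹ • ε ∈ Valg E (Ns q s)

end

end Pool.Agent.Helper49.SH
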