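import Pool.Agent.Helper49.SH.Df
import Pool.Agent.Helper96.SH.Ce

/-!
PROJECT ALLQ: the output of block X (the concrete family over a product of discs), for `K_fam`.
-/

set_option autoImplicit false

namespace Pool.Agent.Helper49.SH

open Finset Complex Pool.Agent.Helper34.LT LTG Pool.Agent.Helper34.LU

noncomputable section

/-- `(w, 0)` -/
def jl {ι ι' : Type} (w : ι → ℂ) : ι ⊕ ι' → ℂ := Sum.elim w 0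

/-- `(0, w)` -/
def jr {ι ι' : Type} (w : ι' → ℂ) : ι ⊕ ι' → ℂ := Sum.elim 0 w

/-- `A` acts on the plane number `u` by an invertible matrix of algebraic numbers -/
def AlgAct (q : ℕ) (A : Iq q ⊕ Iq q → Iq q ⊕ Iq q → ℚ) : Prop :=
  ∀ u ∈ UU q, ∀ ε, IsEps q u ε → ∃ a b c d : ℂ, IsAlgebraic ℚ a ∧ IsAlgebraic ℚ b ∧
    IsAlgebraic ℚ c ∧ IsAlgebraic ℚ d ∧ a * d - b * c ≠ 0 ∧
    mv A (jl ε) = a • jl ε + c • jr ε ∧ mv A (jr ε) = b • jl ε + d • jr ε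

/-- inverse rational matrices -/
def Inv2 {ι ι' : Type} [Fintype ι] [Fintype ι'] (M : ι → ι' → ℚ) (M' : ι' → ι → ℚ) : Prop :=
  (∀ w, mv M (mv M' w) = w) ∧ ∀ w, mv M' (mv M w) = w

/-- the data of the family -/
structure XD (q : ℕ) (s1 s2 t1 t2 : Finset ℕ) (E1 E2 : Iq q → Iq q → ℚ) where
  μ : Type
  fμ : Fintype μ
  dμ : DecidableEq μ
  ν : Type
  fν : Fintype ν
  X : Set (ν → ℂ)
  Z : (ν → ℂ) → Matrix μ μ ℂ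
  op : IsOpen X
  conn : IsPreconnected X
  hol : ∀ i j, DifferentiableOn ℂ (fun x => Z x i j) X
  sieg : ∀ x ∈ X, Helper96.SH.Sieg (Z x)
  /-- the coordinates: `S : Q^(μ+μ) → K^2` -/
  S : Iq q ⊕ Iq q → μ ⊕ μ → ℚ
  S' : μ ⊕ μ → Iq q ⊕ Iq q → ℚ
  inv : Inv2 S S'
  form : ∀ w w', Eb (dsum E1 E2) (mv S w) (mv S w') = Helper16.SH.En (Helper96.SH.E0 μ) w w'
  /-- the fixed point and the map -/
  x1 : ν → ℂ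
  x1m : x1 ∈ X
  g : (ν → ℂ) → (ν → ℂ)
  gX : Set.MapsTo g X X
  gd : DifferentiableOn ℂ g X
  g1 : g x1 = x1
  gi : ∀ v, fderiv ℂ g x1 v = v → v = 0
  R : Matrix (μ ⊕ μ) (μ ⊕ μ) ℚ
  R' : Matrix (μ ⊕ μ) (μ ⊕ μ) ℚ
  RR : R * R' = 1
  RE : ∀ w w', Helper16.SH.En (Helper96.SH.E0 μ) (Helper16.SH.mQ R w) (Helper16.SH.mQ R w') =
    Helper16.SH.En (Helper96.SH.E0 μ) w w'
  RN : ∀ x ∈ X, ∀ e, e ∈ Helper96.SH.NZ (Z x) ↔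
    Helper16.SH.mQ R e ∈ Helper96.SH.NZ (Z (g x))
  /-- frame and immersion -/
  κ : Type
  fr : κ → (ν → ℂ) → (μ ⊕ μ → ℂ)
  frd : ∀ k, DifferentiableAt ℂ (fr k) x1
  frN : ∀ k, ∀ x ∈ X, fr k x ∈ Helper96.SH.NZ (Z x)
  frI : ∀ v, (∀ k, ∀ u ∈ Helper96.SH.NZ (Z x1),
    Helper16.SH.En (Helper96.SH.E0 μ) u (fderiv ℂ (fr k) x1 v) = 0) → v = 0
  /-- compactness -/
  cpt : ∀ u ∈ s1 ∩ s2, ∀ ε, IsEps q u ε →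
    Helper16.SH.Cpt (Helper96.SH.E0 μ) X (fun x => Helper96.SH.NZ (Z x))
      (mv S' (jl ε)) (mv S' (jr ε))
  /-- the dense orbit -/
  O : Set (ν → ℂ)
  OX : O ⊆ X
  Od : X ⊆ closure O
  Og : Set.MapsTo g O O
  Oa : ∀ x ∈ O, ∃ A A' : Iq q ⊕ Iq q → Iq q ⊕ Iq q → ℚ, Inv2 A A' ∧
    pb (dsum E1 E2) A = dsum E1 E2 ∧ AlgAct q A ∧
    ∀ w, w ∈ Helper96.SH.NZ (Z x) ↔ mv A (mv S w) ∈ Np (Ns q s1) (Ns q s2)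
  /-- the second splitting at `x1` -/
  xa : ∃ (M M' : Iq q ⊕ Iq q → Iq q ⊕ Iq q → ℚ) (ξ3 ξ4 : Polynomial ℚ)
    (E3 E4 : Iq q → Iq q → ℚ), Inv2 M M' ∧ AlgAct q M ∧ KForm q ξ3 E3 ∧ KForm q ξ4 E4 ∧
    Pol E3 (Ns q t1) ∧ Pol E4 (Ns q t2) ∧ pb (dsum E1 E2) M = dsum E3 E4 ∧
    ∀ w, w ∈ Np (Ns q t1) (Ns q t2) ↔ mv S' (mv M w) ∈ Helper96.SH.NZ (Z x1)

/-- TARGET of block X -/
def XMain : Prop := ∀ (q : ℕ) (s1 s2 t1 t2 : Finset ℕ) (ξ1 ξ2 : Polynomial ℚ)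
  (E1 E2 : Iq q → Iq q → ℚ), HS q s1 → HS q s2 → HS q t1 → HS q t2 →
  KForm q ξ1 E1 → KForm q ξ2 E2 → Pol E1 (Ns q s1) → Pol E2 (Ns q s2) →
  s1 ≠ s2 → (s1 ∩ s2).Nonempty → s1 ∩ s2 = t1 ∩ t2 → s1 ∪ s2 = t1 ∪ t2 →
  Nonempty (XD q s1 s2 t1 t2 E1 E2)

end

end Pool.Agent.Helper49.SH
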