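import Pool.Agent.Helper49.SH.Fin1
import Pool.Agent.Helper16.SH.Ka

/-!
PROJECT ALLQ (MP_274814_nt): for every `q > 2`, `φ(q)/2` of the quotients `Γ(a/q) / Γ(1 - a/q)` are
algebraically independent over the rational numbers.
-/

set_option autoImplicit false

namespace Pool.Agent.Helper49.SH

open Pool.Agent.Helper24.LU (HasInd)

/-- **ALLQ.** -/
theorem hall (q : ℕ) (hq : 2 < q) : HasInd q (q.totient / 2) :=
  hall_of_fam (fun h1 h2 h3 h4 h5 h6 h7 h8 =>
    Pool.Agent.Helper16.SH.K_fam h1 h2 h3 h4 h5 h6 h7 h8) q hq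

end Pool.Agent.Helper49.SH
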