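import Pool.Agent.Helper49.SH.Df
import Pool.Agent.Helper34.SH.Fa
import Pool.Agent.Helper65.SH.Gr

/-!
PROJECT ALLQ: final assembly from the five statements about good types.
-/

set_option autoImplicit false

namespace Pool.Agent.Helper49.SH

open Finset Complex Pool.Agent.Helper34.LT LTG Pool.Agent.Helper34.LU
open Pool.Agent.Helper44.LT (PU)
open Pool.Agent.Helper24.LU (KR Ind)
open Pool.Agent.Helper32.LU (Pr)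
open Pool.Agent.Helper65.SH (IsT Un mem_Un)
open Pool.Agent.Helper34.SH (GT)

theorem HS_of_IsT {q : ℕ} (h3 : 3 ≤ q) {s : Finset ℕ} (h : IsT q s) : HS q s :=
  ⟨h3, fun _ hu => mem_Un.1 (h.1 hu), fun u h4 h5 h6 => h.2 u (mem_Un.2 ⟨h4, h5, h6⟩)⟩

theorem IsT_of_HS {q : ℕ} {s : Finset ℕ} (h : HS q s) : IsT q s :=
  ⟨fun u hu => mem_Un.2 (h.mem u hu), fun u hu => by
    obtain ⟨h1, h2, h4⟩ := mem_Un.1 hu
    exact h.half u h1 h2 h4⟩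

/-- the final theorem from the statements on good types -/
theorem final_of
    (unique : ∀ {q : ℕ} {s : Finset ℕ} {ρ ρ' : ℕ → ℂ}, GoodS q s ρ → GoodS q s ρ' →
      ∀ u ∈ s, IsAlgebraic ℚ (ρ u / ρ' u))
    (base : ∀ (q a b : ℕ), 3 ≤ q → ¬ q ∣ a → ¬ q ∣ b → Nat.Coprime (a + b) q →
      GoodS q (PU q a b) (rhU q a b))
    (scale : ∀ (q a b : ℕ), 3 ≤ q → ¬ q ∣ a → ¬ q ∣ b → Nat.Coprime (a + b) q →
      ∀ u ∈ PU q a b, IsAlgebraic (KR q) (rhU q a b u ^ 2 / Real.pi))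
    (fam : ∀ {q : ℕ} {s1 s2 t1 t2 : Finset ℕ} {ρ1 ρ2 : ℕ → ℂ}, GoodS q s1 ρ1 → GoodS q s2 ρ2 →
      HS q t1 → HS q t2 → s1 ≠ s2 → (s1 ∩ s2).Nonempty → s1 ∩ s2 = t1 ∩ t2 →
      s1 ∪ s2 = t1 ∪ t2 → ∃ ρ3 ρ4, GoodS q t1 ρ3 ∧ GoodS q t2 ρ4 ∧
        ∀ u ∈ s1 ∩ s2, IsAlgebraic ℚ (ρ1 u * ρ2 u / (ρ3 u * ρ4 u)))
    (toGT : ∀ {q : ℕ} {s : Finset ℕ} {ρ : ℕ → ℂ}, GoodS q s ρ →
      (∀ u ∈ s, IsAlgebraic (KR q) (ρ u ^ 2 / Real.pi)) →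
      ∃ (ρ' : ℕ → ℂ) (κ : s → ℂ) (c : Polynomial ℤ → ℂ) (τ : (s → ℂ) → ℂ), GT q s ρ' κ c τ) :
    ∀ q : ℕ, 3 ≤ q → Ind q (q.totient / 2) := by
  refine Pool.Agent.Helper34.SH.all_of_GT ?_
  intro q hg s hs
  have h3 : 3 ≤ q := hs.three
  have h := Pool.Agent.Helper65.SH.glue h3 hg (KR q) (GoodS q)
    (fun Φ p _ hp s hs => by
      obtain ⟨_, ξ, E, _, _, _, h5⟩ := hp
      exact (h5 s hs).1)
    (fun Φ p p' _ hp hp' s hs => unique hp hp' s hs)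
    (fun a b hab => ⟨rhU q a b, base q a b h3 hab.1 hab.2.1 hab.2.2,
      scale q a b h3 hab.1 hab.2.1 hab.2.2⟩)
    (fun A B C D _ _ hC hD hne hcap hi hu p1 p2 h1 h2 =>
      fam h1 h2 (HS_of_IsT h3 hC) (HS_of_IsT h3 hD) hne hcap hi hu)
    s (IsT_of_HS hs)
  obtain ⟨ρ, h1, h2⟩ := h
  exact toGT h1 h2

theorem hasInd_of_Ind {q n : ℕ} (h : Ind q n) : Pool.Agent.Helper24.LU.HasInd q n := by
  obtain ⟨S, hc, hS, hi⟩ := h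
  have e : Fin n ≃ S := (Fintype.equivFinOfCardEq (by rw [Fintype.card_coe, hc])).symm
  refine ⟨fun k => ⟨(e k : ℕ), hS _ (e k).2⟩, ?_⟩
  have h2 := hi.comp e e.injective
  exact h2

end Pool.Agent.Helper49.SH
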