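import Pool.Agent.Helper49.SH.Fin0
import Pool.Agent.Helper2.SH.Ke
import Pool.Agent.Helper63.SH.Kb
import Pool.Agent.Helper24.CR.Ks
import Pool.Agent.Helper34.SH.Tf

/-!
PROJECT ALLQ: everything except the family theorem for types.
-/

set_option autoImplicit false

namespace Pool.Agent.Helper49.SH

open Finset Complex Pool.Agent.Helper34.LT LTG Pool.Agent.Helper34.LU
open Pool.Agent.Helper24.LU (HasInd)

theorem hall_of_fam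
    (fam : ∀ {q : ℕ} {s1 s2 t1 t2 : Finset ℕ} {ρ1 ρ2 : ℕ → ℂ}, GoodS q s1 ρ1 → GoodS q s2 ρ2 →
      HS q t1 → HS q t2 → s1 ≠ s2 → (s1 ∩ s2).Nonempty → s1 ∩ s2 = t1 ∩ t2 →
      s1 ∪ s2 = t1 ∪ t2 → ∃ ρ3 ρ4, GoodS q t1 ρ3 ∧ GoodS q t2 ρ4 ∧
        ∀ u ∈ s1 ∩ s2, IsAlgebraic ℚ (ρ1 u * ρ2 u / (ρ3 u * ρ4 u)))
    (q : ℕ) (hq : 2 < q) : HasInd q (q.totient / 2) :=
  hasInd_of_Ind (final_of (fun h h' => Pool.Agent.Helper2.SH.K_unique h h')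
    Pool.Agent.Helper63.SH.K_base Pool.Agent.Helper24.CR.K_base_scale
    (fun h1 h2 h3 h4 h5 h6 h7 h8 => fam h1 h2 h3 h4 h5 h6 h7 h8)
    (fun h h' => Pool.Agent.Helper34.SH.K_GT h h') q hq)

end Pool.Agent.Helper49.SH
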