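import Pool.Agent.Helper49.SH.Df
import Pool.Agent.Helper34.SH.Fa

/-!
PROJECT ALLQ: targets of the family side. DO NOT IMPORT IN FINAL FILES (everything has `sorry`);
restate your target word for word in your own file.
-/

set_option autoImplicit false

namespace Pool.Agent.Helper49.SH.Stub

open Finset Complex Pool.Agent.Helper34.LT LTG Pool.Agent.Helper34.LU Pool.Agent.Helper49.SH
open Pool.Agent.Helper44.LT (PU)
open Pool.Agent.Helper24.LU (KR)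
open Pool.Agent.Helper34.SH (GT)

variable {ι ι' : Type} [Fintype ι] [Fintype ι']

/-! ### block E1: calculus (helper3) -/

theorem AT_Ut {E : ι → ι → ℚ} {N : Submodule ℂ (ι → ℂ)} {F : (ι → ℂ) → ℂ}
    (hE : ∀ i j, E i j = -E j i) (h : AT E N F) (t : ι → ℚ) : AT E N (Ut E t F) := by
  sorry

theorem AlgT_Ut {E : ι → ι → ℚ} {N : Submodule ℂ (ι → ℂ)} {F : (ι → ℂ) → ℂ}
    (hE : ∀ i j, E i j = -E j i) (h : AlgT E N F) (t : ι → ℚ) : AlgT E N (Ut E t F) := by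
  sorry

theorem nab_Ut {E : ι → ι → ℚ} {F : (ι → ℂ) → ℂ} (hE : ∀ i j, E i j = -E j i)
    (h : Differentiable ℂ F) (t : ι → ℚ) (e w : ι → ℂ) :
    nab E e (Ut E t F) w = exp (Real.pi * I * Eb E (rv t) w) * nab E e F (w + rv t) := by
  sorry

theorem AlgT_add {E : ι → ι → ℚ} {N : Submodule ℂ (ι → ℂ)} {F G : (ι → ℂ) → ℂ}
    (h : AlgT E N F) (h' : AlgT E N G) : AlgT E N (F + G) := by
  sorry

theorem AlgT_smul {E : ι → ι → ℚ} {N : Submodule ℂ (ι → ℂ)} {F : (ι → ℂ) → ℂ}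
    (h : AlgT E N F) {c : ℂ} (hc : IsAlgebraic ℚ c) : AlgT E N (c • F) := by
  sorry

theorem AlgT_mul {E E' : ι → ι → ℚ} {N : Submodule ℂ (ι → ℂ)} {F G : (ι → ℂ) → ℂ}
    (h : AlgT E N F) (h' : AlgT E' N G) : AlgT (E + E') N (F * G) := by
  sorry

theorem AlgT_neg {E : ι → ι → ℚ} {N : Submodule ℂ (ι → ℂ)} {F : (ι → ℂ) → ℂ}
    (h : AlgT E N F) : AlgT E N (fun w => F (-w)) := by
  sorry

/-- pull back by any rational matrix -/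
theorem AlgT_pull {E : ι → ι → ℚ} {N : Submodule ℂ (ι → ℂ)} {F : (ι → ℂ) → ℂ}
    (h : AlgT E N F) (M : ι → ι' → ℚ) :
    AlgT (pb E M) (N.comap (mvL M)) (fun w => F (mv M w)) := by
  sorry

theorem nab_pull {E : ι → ι → ℚ} {F : (ι → ℂ) → ℂ} (h : Differentiable ℂ F) (M : ι → ι' → ℚ)
    (e w : ι' → ℂ) :
    nab (pb E M) e (fun w => F (mv M w)) w = nab E (mv M e) F (mv M w) := by
  sorry

theorem AlgT_prod {E : ι → ι → ℚ} {N : Submodule ℂ (ι → ℂ)} {F : (ι → ℂ) → ℂ}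
    {E' : ι' → ι' → ℚ} {N' : Submodule ℂ (ι' → ℂ)} {F' : (ι' → ℂ) → ℂ}
    (h : AlgT E N F) (h' : AlgT E' N' F') :
    AlgT (dsum E E') (Np N N')
      (fun w => F (fun i => w (Sum.inl i)) * F' (fun i => w (Sum.inr i))) := by
  sorry

/-- immersion -/
theorem imm {E : ι → ι → ℚ} {N : Submodule ℂ (ι → ℂ)} (hP : Pol E N) {F : (ι → ℂ) → ℂ}
    (h : AT E N F) (h0 : F ≠ 0) {e : ι → ℂ} (he : e ∈ Nc N) (he0 : e ≠ 0) (κ : ℂ) :
    ∃ w, nab E e F w ≠ κ * F w := by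
  sorry

/-! ### blocks E2, E3: `Valg` is a form of `Nc` over the algebraic numbers (helper44, helper73) -/

theorem E_one {E : ι → ι → ℚ} {N : Submodule ℂ (ι → ℂ)} (hP : Pol E N) {F : (ι → ℂ) → ℂ}
    (hF : AlgT E N F) (h0 : F ≠ 0) {e : ι → ℂ} (he : e ∈ Nc N)
    (h : ∀ t : ι → ℚ, F (rv t) ≠ 0 → IsAlgebraic ℚ (nab E e F (rv t))) : e ∈ Valg E N := by
  sorry

theorem E_form {E : ι → ι → ℚ} {N : Submodule ℂ (ι → ℂ)} (hP : Pol E N) (hG : Good E N) :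
    ∃ b : Fin (Module.finrank ℂ N) → (ι → ℂ), (∀ i, b i ∈ Valg E N) ∧ LinearIndependent ℂ b ∧
      ∀ c : Fin (Module.finrank ℂ N) → ℂ, ∑ i, c i • b i ∈ Valg E N →
        ∀ i, IsAlgebraic ℚ (c i) := by
  sorry

theorem E_indep {E E' : ι → ι → ℚ} {N : Submodule ℂ (ι → ℂ)} (hP : Pol E N) (hP' : Pol E' N)
    (hG : Good E N) (hG' : Good E' N) : Valg E N = Valg E' N := by
  sorry

/-- transport by a rational isomorphism -/
theorem E_iso {E : ι → ι → ℚ} {N : Submodule ℂ (ι → ℂ)} (hP : Pol E N) (hG : Good E N)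
    (M : ι → ι' → ℚ) (M' : ι' → ι → ℚ) (h1 : ∀ w, mv M (mv M' w) = w)
    (h2 : ∀ w, mv M' (mv M w) = w) :
    Pol (pb E M) (N.comap (mvL M)) ∧ Good (pb E M) (N.comap (mvL M)) ∧
      ∀ e, e ∈ Valg (pb E M) (N.comap (mvL M)) ↔ mv M e ∈ Valg E N := by
  sorry

/-! ### block K: one CM type (helper2, helper65) -/

theorem K_scale {q : ℕ} {s : Finset ℕ} {ξ : Polynomial ℚ} {E : Iq q → Iq q → ℚ} (hs : HS q s)
    (hK : KForm q ξ E) (hP : Pol E (Ns q s)) (hG : Good E (Ns q s)) : ∃ ρ, GoodS q s ρ := by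
  sorry

theorem K_unique {q : ℕ} {s : Finset ℕ} {ρ ρ' : ℕ → ℂ} (h : GoodS q s ρ) (h' : GoodS q s ρ') :
    ∀ u ∈ s, IsAlgebraic ℚ (ρ u / ρ' u) := by
  sorry

/-! ### block E5: Fermat types (helper63, helper7) -/

theorem K_base (q a b : ℕ) (h3 : 3 ≤ q) (ha : ¬ q ∣ a) (hb : ¬ q ∣ b)
    (hab : Nat.Coprime (a + b) q) : GoodS q (PU q a b) (rhU q a b) := by
  sorry

theorem K_base_scale (q a b : ℕ) (h3 : 3 ≤ q) (ha : ¬ q ∣ a) (hb : ¬ q ∣ b)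
    (hab : Nat.Coprime (a + b) q) :
    ∀ u ∈ PU q a b, IsAlgebraic (KR q) (rhU q a b u ^ 2 / Real.pi) := by
  sorry

/-! ### family theorem for types (helper49, helper16, helper94, helper75) -/

theorem K_fam {q : ℕ} {s1 s2 t1 t2 : Finset ℕ} {ρ1 ρ2 : ℕ → ℂ} (h1 : GoodS q s1 ρ1)
    (h2 : GoodS q s2 ρ2) (ht1 : HS q t1) (ht2 : HS q t2) (hne : s1 ≠ s2)
    (hcap : (s1 ∩ s2).Nonempty) (hi : s1 ∩ s2 = t1 ∩ t2) (hu : s1 ∪ s2 = t1 ∪ t2) :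
    ∃ ρ3 ρ4, GoodS q t1 ρ3 ∧ GoodS q t2 ρ4 ∧
      ∀ u ∈ s1 ∩ s2, IsAlgebraic ℚ (ρ1 u * ρ2 u / (ρ3 u * ρ4 u)) := by
  sorry

/-! ### from good types to the machine (helper34, helper53) -/

theorem K_GT {q : ℕ} {s : Finset ℕ} {ρ : ℕ → ℂ} (h : GoodS q s ρ)
    (hρ : ∀ u ∈ s, IsAlgebraic (KR q) (ρ u ^ 2 / Real.pi)) :
    ∃ (ρ' : ℕ → ℂ) (κ : s → ℂ) (c : Polynomial ℤ → ℂ) (τ : (s → ℂ) → ℂ), GT q s ρ' κ c τ := by
  sorry

end Pool.Agent.Helper49.SH.Stub
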